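import Pool.Agent.W203.WS.Stm

/-! Lower bound of the singular integral. -/

set_option autoImplicit false

open MeasureTheory Finset

namespace Pool.Agent.W310.WS

open Pool.Agent.W203.WS

theorem pw {a b : ℝ} (hb : 1 ≤ b) (hab : b ≤ a) {k : ℕ} (hk : 1 ≤ k) :
    b ^ k + (a - b) ≤ a ^ k := by
  induction k, hk using Nat.le_induction with
  | base => simp
  | succ j _ ih =>
    have h1 : 1 ≤ b ^ j := one_le_pow₀ hb
    have h2 : 0 ≤ a ^ j - b ^ j := by linarith
    rw [pow_succ, pow_succ]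
    nlinarith [mul_nonneg h2 (by linarith : (0 : ℝ) ≤ a), mul_nonneg (by linarith : (0 : ℝ) ≤ b ^ j - 1) (by linarith : (0 : ℝ) ≤ a - b)]

theorem t_JL : S_JL := by
  intro k s hk hs
  obtain ⟨n, rfl⟩ : ∃ n, s = n + 1 := ⟨s - 1, by omega⟩
  have hkR : (1 : ℝ) ≤ k := by exact_mod_cast hk
  have hk0 : k ≠ 0 := by omega
  have h4k : (4 : ℝ) ≤ 4 ^ k := by
    calc (4 : ℝ) = 4 ^ 1 := by norm_num
      _ ≤ 4 ^ k := pow_le_pow_right₀ (by norm_num) hk
  set δ : ℝ := 1 / (4 * (n + 1) * k * 4 ^ k) with hδ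
  set c1 : ℝ := 1 / (k * 4 ^ k) with hc1
  have hδ0 : 0 < δ := by positivity
  have hc10 : 0 < c1 := by positivity
  have hn1 : (1 : ℝ) ≤ n + 1 := by linarith [Nat.cast_nonneg (α := ℝ) n]
  have hδ1 : δ ≤ 1 / 2 := by
    rw [hδ]
    apply one_div_le_one_div_of_le (by norm_num)
    have : (1 : ℝ) ≤ (n + 1) * k := by nlinarith
    nlinarith
  have hc11 : c1 ≤ 1 / 4 := by
    rw [hc1]
    apply one_div_le_one_div_of_le (by norm_num)
    nlinarith
  refine ⟨Real.exp (-Real.pi) * (2 * c1 * (2 * δ) ^ n), by positivity, ?_⟩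
  intro P ε M hP hε hε1 hM1 hM2
  have hP1 : (1 : ℝ) ≤ P := by exact_mod_cast hP
  have hP0 : (0 : ℝ) < P := by linarith
  have hPk : (1 : ℝ) ≤ (P : ℝ) ^ k := one_le_pow₀ hP1
  set L : ℝ := k * (4 * P) ^ (k - 1) with hL
  have hL0 : 0 < L := by positivity
  have hLP : L * P = k * 4 ^ k * P ^ k / 4 := by
    have : (4 * (P : ℝ)) ^ k = (4 * P) ^ (k - 1) * (4 * P) := by
      rw [← pow_succ, Nat.sub_add_cancel hk]
    rw [mul_pow] at this
    rw [hL]
    linear_combination (-(k : ℝ) / 4) * this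
  have hdiff : ∀ a b : ℝ, 0 ≤ a → a ≤ 4 * P → 0 ≤ b → b ≤ 4 * P →
      |a ^ k - b ^ k| ≤ L * |a - b| := by
    intro a b ha ha' hb hb'
    have h1 := abs_pow_sub_pow_le a b k
    have h2 : max |a| |b| ^ (k - 1) ≤ (4 * (P : ℝ)) ^ (k - 1) := by
      apply pow_le_pow_left₀ (le_max_of_le_left (abs_nonneg _))
      rw [abs_of_nonneg ha, abs_of_nonneg hb]
      exact max_le ha' hb'
    calc |a ^ k - b ^ k| ≤ |a - b| * k * max |a| |b| ^ (k - 1) := h1
      _ ≤ |a - b| * k * (4 * (P : ℝ)) ^ (k - 1) :=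
          mul_le_mul_of_nonneg_left h2 (by positivity)
      _ = L * |a - b| := by rw [hL]; ring
  -- the centre
  have hM0 : 0 < M / (n + 1) := by
    have : 0 < ((n + 1 : ℕ) : ℝ) * (3 / 2 * P) ^ k := by positivity
    apply div_pos (by linarith) (by positivity)
  set v : ℝ := (M / (n + 1)) ^ ((k : ℝ)⁻¹) with hv
  have hv0 : 0 ≤ v := by positivity
  have hvk : v ^ k = M / (n + 1) := Real.rpow_inv_natCast_pow hM0.le hk0
  have hvk1 : (3 / 2 * (P : ℝ)) ^ k ≤ v ^ k := by
    rw [hvk, le_div_iff₀ (by positivity)]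
    push_cast at hM1
    linarith
  have hvk2 : v ^ k ≤ (3 * (P : ℝ)) ^ k := by
    rw [hvk, div_le_iff₀ (by positivity)]
    push_cast at hM2
    linarith
  have hv1 : 3 / 2 * (P : ℝ) ≤ v := le_of_pow_le_pow_left₀ hk0 hv0 hvk1
  have hv2 : v ≤ 3 * (P : ℝ) := le_of_pow_le_pow_left₀ hk0 (by positivity) hvk2
  -- the box, the function `g`, the set `B`
  set a : Fin n → ℝ := fun _ => v - δ * P with ha
  set b : Fin n → ℝ := fun _ => v + δ * P with hb
  set mm : (Fin n → ℝ) → ℝ := fun w => M - ∑ i, (w i) ^ k with hmm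
  set g : (Fin n → ℝ) → ℝ := fun w => (mm w) ^ ((k : ℝ)⁻¹) with hg
  set ρ : ℝ := c1 * ε * (P / P ^ k) with hρ
  have hρ0 : 0 < ρ := by positivity
  have hmmm : Measurable mm := by rw [hmm]; fun_prop
  have hgm : Measurable g := hmmm.pow_const _
  set B : Set (ℝ × (Fin n → ℝ)) := {p | p.2 ∈ Set.Icc a b ∧ g p.2 - ρ ≤ p.1 ∧ p.1 ≤ g p.2 + ρ}
    with hB
  have hBm : MeasurableSet B := by
    refine (measurableSet_Icc.preimage measurable_snd).inter ?_
    exact (measurableSet_le ((hgm.comp measurable_snd).sub_const _) measurable_fst).inter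
      (measurableSet_le measurable_fst ((hgm.comp measurable_snd).add_const _))
  have hPP : (P : ℝ) / P ^ k ≤ P := div_le_self hP0.le hPk
  have hρ1 : ρ ≤ P / 4 := by
    rw [hρ]
    calc c1 * ε * (P / P ^ k) ≤ 1 / 4 * 1 * P := by gcongr
      _ = P / 4 := by ring
  -- estimates on `B`
  have hw : ∀ w ∈ Set.Icc a b, (∀ i, (P : ℝ) ≤ w i ∧ w i ≤ 4 * P) ∧
      5 / 4 * (P : ℝ) ≤ g w ∧ g w ≤ 7 / 2 * P ∧ (g w) ^ k = mm w := by
    intro w hw
    have h1 : ∀ i, v - δ * P ≤ w i ∧ w i ≤ v + δ * P := fun i => ⟨hw.1 i, hw.2 i⟩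
    have hδP : δ * P ≤ P / 2 := by nlinarith
    have h2 : ∀ i, (P : ℝ) ≤ w i ∧ w i ≤ 4 * P := fun i =>
      ⟨by linarith [(h1 i).1], by linarith [(h1 i).2]⟩
    have h3 : |mm w - v ^ k| ≤ P ^ k / 16 := by
      have e1 : mm w - v ^ k = ∑ i : Fin n, (v ^ k - (w i) ^ k) := by
        rw [hmm, Finset.sum_sub_distrib, Finset.sum_const, Finset.card_univ, Fintype.card_fin,
          nsmul_eq_mul]
        simp only
        have : M = (n + 1) * v ^ k := by rw [hvk]; field_simp
        rw [this]; ring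
      rw [e1]
      calc |∑ i : Fin n, (v ^ k - (w i) ^ k)| ≤ ∑ i : Fin n, |v ^ k - (w i) ^ k| :=
            Finset.abs_sum_le_sum_abs _ _
        _ ≤ ∑ _i : Fin n, L * (δ * P) := by
            refine Finset.sum_le_sum fun i _ => ?_
            refine (hdiff v (w i) hv0 (by linarith) (by linarith [(h2 i).1]) (h2 i).2).trans ?_
            refine mul_le_mul_of_nonneg_left ?_ hL0.le
            rw [abs_le]; constructor <;> linarith [(h1 i).1, (h1 i).2]
        _ = n * δ * (L * P) := by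
            rw [Finset.sum_const, Finset.card_univ, Fintype.card_fin, nsmul_eq_mul]; ring
        _ ≤ (n + 1) * δ * (L * P) := by gcongr; linarith
        _ = P ^ k / 16 := by
            rw [hLP, hδ]; field_simp; norm_num
    rw [abs_le] at h3
    have q1 := pw (a := 3 / 2) (b := 5 / 4) (by norm_num) (by norm_num) hk
    have q2 := pw (a := 7 / 2) (b := 3) (by norm_num) (by norm_num) hk
    have h4 : (5 / 4 * (P : ℝ)) ^ k ≤ mm w := by
      rw [mul_pow] at hvk1 ⊢
      have q3 := mul_le_mul_of_nonneg_right q1 (by positivity : (0 : ℝ) ≤ (P : ℝ) ^ k)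
      rw [add_mul] at q3
      linarith [h3.1]
    have h5 : mm w ≤ (7 / 2 * (P : ℝ)) ^ k := by
      rw [mul_pow] at hvk2 ⊢
      have q3 := mul_le_mul_of_nonneg_right q2 (by positivity : (0 : ℝ) ≤ (P : ℝ) ^ k)
      rw [add_mul] at q3
      linarith [h3.2]
    have h6 : 0 ≤ mm w := le_trans (by positivity) h4
    have h7 : (g w) ^ k = mm w := Real.rpow_inv_natCast_pow h6 hk0
    have h8 : 0 ≤ g w := Real.rpow_nonneg h6 _
    refine ⟨h2, ?_, ?_, h7⟩
    · exact le_of_pow_le_pow_left₀ hk0 h8 (by rw [h7]; exact h4)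
    · exact le_of_pow_le_pow_left₀ hk0 (by positivity) (by rw [h7]; exact h5)
  -- the volume of `B`
  have hvB : volume B = ENNReal.ofReal (2 * ρ) * ENNReal.ofReal (2 * (δ * P)) ^ n := by
    rw [Measure.volume_eq_prod, Measure.prod_apply_symm hBm]
    have h1 : ∀ w : Fin n → ℝ, volume ((fun x : ℝ => (x, w)) ⁻¹' B) =
        (Set.Icc a b).indicator (fun _ => ENNReal.ofReal (2 * ρ)) w := by
      intro w
      by_cases h : w ∈ Set.Icc a b
      · rw [Set.indicator_of_mem h]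
        have : (fun x : ℝ => (x, w)) ⁻¹' B = Set.Icc (g w - ρ) (g w + ρ) := by
          ext x; simp only [hB, Set.mem_preimage, Set.mem_ofPred_eq, Set.mem_Icc]
          exact ⟨fun h' => h'.2, fun h' => ⟨h, h'⟩⟩
        rw [this, Real.volume_Icc]; congr 1; ring
      · rw [Set.indicator_of_notMem h]
        have : (fun x : ℝ => (x, w)) ⁻¹' B = ∅ := by
          ext x
          simp only [hB, Set.mem_preimage, Set.mem_ofPred_eq, Set.mem_empty_iff_false, iff_false]
          exact fun h' => h h'.1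
        rw [this, measure_empty]
    rw [lintegral_congr h1, lintegral_indicator measurableSet_Icc, lintegral_const,
      Measure.restrict_apply_univ, Real.volume_Icc_pi]
    congr 1
    have h2 : ∀ i : Fin n, ENNReal.ofReal (b i - a i) = ENNReal.ofReal (2 * (δ * P)) := by
      intro i
      have h3 : b i - a i = 2 * (δ * P) := by rw [ha, hb]; ring
      rw [h3]
    rw [Finset.prod_congr rfl (fun i _ => h2 i), Finset.prod_const, Finset.card_univ,
      Fintype.card_fin]
  -- transport to `Fin (n + 1) → ℝ`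
  set eq := MeasurableEquiv.piFinSuccAbove (fun _ : Fin (n + 1) => ℝ) 0 with heq
  have hmp : MeasurePreserving eq volume volume :=
    volume_preserving_piFinSuccAbove (fun _ : Fin (n + 1) => ℝ) 0
  set A : Set (Fin (n + 1) → ℝ) := eq ⁻¹' B with hA
  have hAm : MeasurableSet A := eq.measurable hBm
  have hvA : volume A = ENNReal.ofReal (2 * ρ) * ENNReal.ofReal (2 * (δ * P)) ^ n := by
    rw [hA, hmp.measure_preimage hBm.nullMeasurableSet, hvB]
  have hvAr : volume.real A = 2 * ρ * (2 * (δ * P)) ^ n := by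
    rw [Measure.real, hvA, ENNReal.toReal_mul, ENNReal.toReal_pow,
      ENNReal.toReal_ofReal (by positivity), ENNReal.toReal_ofReal (by positivity)]
  have hAmem : ∀ u ∈ A, (∀ i, (P : ℝ) ≤ u i ∧ u i ≤ 4 * P) ∧ |(∑ i, (u i) ^ k) - M| ≤ ε := by
    intro u hu
    have hu' : (fun j : Fin n => u j.succ) ∈ Set.Icc a b ∧
        g (fun j : Fin n => u j.succ) - ρ ≤ u 0 ∧ u 0 ≤ g (fun j : Fin n => u j.succ) + ρ := hu
    obtain ⟨h1, h2, h3⟩ := hu'
    obtain ⟨k1, k2, k3, k4⟩ := hw _ h1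
    have h0 : (P : ℝ) ≤ u 0 ∧ u 0 ≤ 4 * P := ⟨by linarith, by linarith⟩
    refine ⟨fun i => ?_, ?_⟩
    · refine Fin.cases h0 (fun j => k1 j) i
    · rw [Fin.sum_univ_succ]
      have e1 : u 0 ^ k + ∑ i : Fin n, u i.succ ^ k - M =
          u 0 ^ k - (g (fun j : Fin n => u j.succ)) ^ k := by
        rw [k4, hmm]; ring
      rw [e1]
      refine (hdiff _ _ (by linarith [h0.1]) h0.2 (by linarith) (by linarith)).trans ?_
      have e2 : |u 0 - g (fun j : Fin n => u j.succ)| ≤ ρ := by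
        rw [abs_le]; constructor <;> linarith
      calc L * |u 0 - g (fun j : Fin n => u j.succ)| ≤ L * ρ :=
            mul_le_mul_of_nonneg_left e2 hL0.le
        _ = (L * P) * (c1 * ε / P ^ k) := by rw [hρ]; ring
        _ = ε / 4 := by rw [hLP, hc1]; field_simp
        _ ≤ ε := by linarith
  have hK : IsCompact (Set.pi Set.univ (fun _ : Fin (n + 1) => Set.Icc (P : ℝ) (4 * P))) :=
    isCompact_univ_pi fun _ => isCompact_Icc
  have hcont : Continuous (fun u : Fin (n + 1) → ℝ => Kr ε ((∑ i, (u i) ^ k) - M)) := by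
    unfold Kr; fun_prop
  have hint := hcont.continuousOn.integrableOn_compact (μ := volume) hK
  have hsub : A ⊆ Set.pi Set.univ (fun _ : Fin (n + 1) => Set.Icc (P : ℝ) (4 * P)) :=
    fun u hu i _ => (hAmem u hu).1 i
  have hJ : Real.exp (-Real.pi) * volume.real A ≤ Jm k (n + 1) P ε M := by
    unfold Jm
    refine le_trans ?_ (setIntegral_mono_set hint
      (Filter.Eventually.of_forall fun u => Real.exp_nonneg _) hsub.eventuallyLE)
    rw [mul_comm, ← smul_eq_mul]
    refine setIntegral_ge_of_const_le hAm ?_ ?_ (hint.mono_set hsub)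
    · rw [hvA]; exact ENNReal.mul_ne_top ENNReal.ofReal_ne_top (ENNReal.pow_ne_top ENNReal.ofReal_ne_top)
    · intro u hu
      unfold Kr
      apply Real.exp_le_exp.2
      have h1 : (((∑ i, (u i) ^ k) - M) / ε) ^ 2 ≤ 1 := by
        rw [sq_le_one_iff_abs_le_one, abs_div, abs_of_pos hε, div_le_one hε]
        exact (hAmem u hu).2
      nlinarith [Real.pi_pos]
  refine le_trans (le_of_eq ?_) hJ
  rw [hvAr, hρ]
  have e3 : (P : ℝ) ^ (((n + 1 : ℕ) : ℝ) - k) = P ^ n * (P / P ^ k) := by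
    rw [Real.rpow_sub hP0, Real.rpow_natCast, Real.rpow_natCast, pow_succ]
    ring
  rw [e3, mul_pow, mul_pow, mul_pow]
  ring

end Pool.Agent.W310.WS
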